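import Pool.Agent.Q216.RK.Basic

/-!
# A local lemma for read-k families of long terms, and two consequences
-/

set_option autoImplicit false

namespace Pool.Agent.Q75.RK

open Finset Pool.Agent.Q216.RK

variable {n : ℕ}

/-- adding terms one by one -/
theorem chain (F : Finset (Tm n)) (ξ : ℝ) (h0 : 0 ≤ 1 - ξ)
    (hP : ∀ G, G ⊆ F → G.card < F.card → ∀ T ∈ F,
      Ex (fun x => ind (satT T x) * ind (!(on G x))) ≤ ξ * off G) (S : Finset (Tm n)) :
    ∀ F1 : Finset (Tm n), F1 ∪ S ⊆ F → Disjoint F1 S →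
      (1 - ξ) ^ S.card * off F1 ≤ off (F1 ∪ S) := by
  classical
  induction S using Finset.induction_on with
  | empty =>
    intro F1 _ _
    rw [Finset.card_empty, pow_zero, one_mul, Finset.union_empty]
  | insert T S hT ih =>
    intro F1 hF hd
    rw [Finset.union_insert] at hF ⊢
    have hTF : T ∈ F := hF (Finset.mem_insert_self _ _)
    have hS : F1 ∪ S ⊆ F := (Finset.subset_insert _ _).trans hF
    have hd1 : Disjoint F1 S := Finset.disjoint_of_subset_right (Finset.subset_insert _ _) hd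
    have hTn : T ∉ F1 ∪ S := by
      rw [Finset.mem_union]
      rintro (h | h)
      · exact Finset.disjoint_left.1 hd h (Finset.mem_insert_self _ _)
      · exact hT h
    have hlt : (F1 ∪ S).card < F.card := by
      refine Finset.card_lt_card ((Finset.ssubset_iff_of_subset hS).2 ⟨T, hTF, hTn⟩)
    have h1 := ih F1 hS hd1
    have h2 := hP _ hS hlt T hTF
    rw [off_insert, Finset.card_insert_of_notMem hT, pow_succ]
    have h3 := mul_le_mul_of_nonneg_left h1 h0
    linarith

/-- the terms touching a set of variables -/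
theorem touch {k : ℕ} {F : Finset (Tm n)} (hR : ReadK k F) (Y : Finset (Fin n))
    (p : Tm n → Prop) [DecidablePred p] (hp : ∀ T ∈ F, p T → ¬ Disjoint (vars T) Y) :
    (F.filter p).card ≤ k * Y.card := by
  classical
  have h1 : F.filter p ⊆ Y.biUnion fun i => F.filter fun T => T i ≠ none := by
    intro T hT
    rw [Finset.mem_filter] at hT
    obtain ⟨i, hi1, hi2⟩ := Finset.not_disjoint_iff.1 (hp T hT.1 hT.2)
    rw [Finset.mem_biUnion]
    exact ⟨i, hi2, Finset.mem_filter.2 ⟨hT.1, mem_vars.1 hi1⟩⟩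
  refine (Finset.card_le_card h1).trans (Finset.card_biUnion_le.trans ?_)
  refine (Finset.sum_le_card_nsmul Y _ k fun i _ => ?_).trans ?_
  · convert hR i
  · rw [smul_eq_mul, mul_comm]

theorem xi_le (l : ℕ) : (3 / 4 : ℝ) ^ l ≤ 1 := pow_le_one₀ (by norm_num) (by norm_num)

theorem xi_nonneg (l : ℕ) : 0 ≤ (3 / 4 : ℝ) ^ l := by positivity

theorem pow_k (k l : ℕ) (h : 10 * k * (3 / 4 : ℝ) ^ l ≤ 1) :
    (9 / 10 : ℝ) ≤ (1 - (3 / 4 : ℝ) ^ l) ^ k := by
  have h1 := one_add_mul_le_pow (a := -((3 / 4 : ℝ) ^ l)) (by linarith [xi_le l]) k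
  have h2 : 1 + -((3 / 4 : ℝ) ^ l) = 1 - (3 / 4 : ℝ) ^ l := by ring
  rw [h2] at h1
  linarith

theorem pow_le_of (k l a b : ℕ) (h : 10 * k * (3 / 4 : ℝ) ^ l ≤ 1) (hb : b ≤ k * a) :
    (9 / 10 : ℝ) ^ a ≤ (1 - (3 / 4 : ℝ) ^ l) ^ b := by
  have h1 : (9 / 10 : ℝ) ^ a ≤ (1 - (3 / 4 : ℝ) ^ l) ^ (k * a) := by
    rw [pow_mul]
    exact pow_le_pow_left₀ (by norm_num) (pow_k k l h) a
  exact h1.trans (pow_le_pow_of_le_one (by linarith [xi_le l]) (by linarith [xi_nonneg l]) hb)

theorem lll_one (k l : ℕ) (hkl : 10 * k * (3 / 4 : ℝ) ^ l ≤ 1) :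
    ∀ N : ℕ, ∀ F : Finset (Tm n), F.card = N → ReadK k F → (∀ T ∈ F, l ≤ len T) → ∀ T : Tm n,
    Ex (fun x => ind (satT T x) * ind (!(on F x))) ≤ (3 / 4) ^ len T * off F := by
  classical
  intro N
  induction N using Nat.strong_induction_on with
  | _ N ih =>
    intro F hN hR hl T
    have hP : ∀ G, G ⊆ F → G.card < F.card → ∀ T ∈ F,
        Ex (fun x => ind (satT T x) * ind (!(on G x))) ≤ (3 / 4 : ℝ) ^ l * off G := by
      intro G hG hc T' hT'
      refine (ih G.card (by omega) G rfl (hR.mono hG) (fun T h => hl T (hG h)) T').trans ?_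
      exact mul_le_mul_of_nonneg_right
        (pow_le_pow_of_le_one (by norm_num) (by norm_num) (hl T' hT')) (off_nonneg G)
    obtain ⟨F0, hF0⟩ : ∃ F0, F0 = F.filter fun T' => Disjoint (vars T') (vars T) := ⟨_, rfl⟩
    obtain ⟨S, hS⟩ : ∃ S, S = F.filter fun T' => ¬ Disjoint (vars T') (vars T) := ⟨_, rfl⟩
    have hFS : F0 ∪ S = F := by
      rw [hF0, hS]
      exact Finset.filter_union_filter_not_eq _ _
    have hdS : Disjoint F0 S := by
      rw [hF0, hS]
      exact Finset.disjoint_filter_filter_not _ _ _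
    have h1 := chain F _ (by linarith [xi_le l]) hP S F0 hFS.subset hdS
    rw [hFS] at h1
    have hSc : S.card ≤ k * len T := by
      rw [hS]
      exact touch hR (vars T) _ fun T' _ h => h
    have h2 := pow_le_of k l (len T) S.card hkl hSc
    have h3 : Ex (fun x => ind (satT T x) * ind (!(on F x))) ≤
        Ex (fun x => ind (satT T x) * ind (!(on F0 x))) := by
      refine Ex_mono fun x => mul_le_mul_of_nonneg_left (ind_mono fun hx => ?_) (ind_nonneg _)
      rw [Bool.not_eq_true'] at hx ⊢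
      rw [on_false_iff] at hx ⊢
      intro T' hT'
      exact hx T' (by rw [← hFS]; exact Finset.mem_union_left _ hT')
    have h4 : Ex (fun x => ind (satT T x) * ind (!(on F0 x))) = (1 / 2) ^ len T * off F0 := by
      rw [Ex_ind (A := vars T) (B := (vars T)ᶜ) (dep_satT T) (dep_off fun T' hT' => ?_)
        disjoint_compl_right, Ex_satT]
      · rfl
      · rw [hF0, Finset.mem_filter] at hT'
        intro i hi
        rw [Finset.mem_compl]
        exact Finset.disjoint_left.1 hT'.2 hi
    have h5 : (9 / 10 : ℝ) ^ len T * off F0 ≤ off F :=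
      (mul_le_mul_of_nonneg_right h2 (off_nonneg F0)).trans h1
    have h6 : (1 / 2 : ℝ) ^ len T ≤ (3 / 4) ^ len T * (9 / 10) ^ len T := by
      rw [← mul_pow]
      exact pow_le_pow_left₀ (by norm_num) (by norm_num) _
    rw [h4] at h3
    refine h3.trans ((mul_le_mul_of_nonneg_right h6 (off_nonneg F0)).trans ?_)
    rw [mul_assoc]
    exact mul_le_mul_of_nonneg_left h5 (by positivity)

theorem lll_two (k l : ℕ) (hkl : 10 * k * (3 / 4 : ℝ) ^ l ≤ 1) (F : Finset (Tm n))
    (hR : ReadK k F) (hl : ∀ T ∈ F, l ≤ len T) (F1 : Finset (Tm n)) (h1 : F1 ⊆ F) :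
    (1 - (3 / 4 : ℝ) ^ l) ^ (F \ F1).card * off F1 ≤ off F := by
  classical
  have h2 := chain F _ (by linarith [xi_le l]) (fun G hG _ T hT =>
    (lll_one k l hkl G.card G rfl (hR.mono hG) (fun T h => hl T (hG h)) T).trans
      (mul_le_mul_of_nonneg_right (pow_le_pow_of_le_one (by norm_num) (by norm_num) (hl T hT))
        (off_nonneg G))) (F \ F1) F1 (by rw [Finset.union_sdiff_of_subset h1])
        Finset.disjoint_sdiff
  rw [Finset.union_sdiff_of_subset h1] at h2
  convert h2

/-- **The local lemma.** -/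
theorem t_LLL : S_LLL := by
  intro k l n F hR hl hkl
  refine ⟨lll_one k l hkl F.card F rfl hR hl, fun F1 h1 => lll_two k l hkl F hR hl F1 h1,
    fun hl1 => ?_⟩
  have h2 := lll_two k l hkl F hR hl ∅ (Finset.empty_subset _)
  rw [off_empty, mul_one] at h2
  refine lt_of_lt_of_le (pow_pos ?_ _) h2
  have h3 : (3 / 4 : ℝ) ^ l < 1 := pow_lt_one₀ (by norm_num) (by norm_num) (by omega)
  linarith

/-- **Lower bound.** -/
theorem t_LOW (h : S_LLL) : S_LOW := by
  classical
  intro k l n F Y R z hR hl hkl hcl hRY hRz hFz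
  obtain ⟨E, hE⟩ : ∃ E : Tm n, E = fun i => if i ∈ Y then some (z i) else none := ⟨_, rfl⟩
  have hEv : vars E = Y := by
    ext i
    rw [mem_vars, hE]
    by_cases hi : i ∈ Y <;> simp [hi]
  obtain ⟨G, hG⟩ : ∃ G, G = (F.filter fun T => ¬ vars T ⊆ Y).image fun T => cut T Y := ⟨_, rfl⟩
  have hGr : ReadK k G := by
    rw [hG]
    exact ReadK.image_cut (hR.mono (Finset.filter_subset _ _)) Y
  have hGl : ∀ T ∈ G, l ≤ len T := by
    intro T hT
    rw [hG, Finset.mem_image] at hT
    obtain ⟨T0, hT0, rfl⟩ := hT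
    rw [Finset.mem_filter] at hT0
    rw [len_cut]
    exact (hcl T0 hT0.1).resolve_left hT0.2
  obtain ⟨G1, hG1⟩ : ∃ G1, G1 = F.filter fun T => Disjoint (vars T) Y := ⟨_, rfl⟩
  have hG1G : G1 ⊆ G := by
    intro T hT
    rw [hG1, Finset.mem_filter] at hT
    rw [hG, Finset.mem_image]
    refine ⟨T, Finset.mem_filter.2 ⟨hT.1, fun hc => ?_⟩, cut_eq_self hT.2⟩
    have h1 : vars T = ∅ := by
      rw [← Finset.disjoint_self_iff_empty]
      exact Finset.disjoint_of_subset_right hc hT.2
    have h2 : satT T z = true := vars_card_zero (by rw [len, h1, Finset.card_empty]) z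
    rw [(on_false_iff.1 hFz) T hT.1] at h2
    exact Bool.false_ne_true h2
  have hcard : (G \ G1).card ≤ k * Y.card := by
    have h1 : G \ G1 ⊆ (F.filter fun T => ¬ Disjoint (vars T) Y).image fun T => cut T Y := by
      intro T hT
      rw [Finset.mem_sdiff, hG, Finset.mem_image] at hT
      obtain ⟨⟨T0, hT0, rfl⟩, h2⟩ := hT
      rw [Finset.mem_filter] at hT0
      rw [Finset.mem_image]
      refine ⟨T0, Finset.mem_filter.2 ⟨hT0.1, fun hc => h2 ?_⟩, rfl⟩
      rw [cut_eq_self hc, hG1, Finset.mem_filter]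
      exact ⟨hT0.1, hc⟩
    exact (Finset.card_le_card h1).trans (Finset.card_image_le.trans
      (touch hR Y _ fun T _ h => h))
  have h1 := ((h k l n G hGr hGl hkl).2.1) G1 hG1G
  have h2 := pow_le_of k l Y.card (G \ G1).card hkl (by convert hcard)
  have h3 : (9 / 10 : ℝ) ^ Y.card * off F ≤ off G := by
    refine le_trans ?_ h1
    refine mul_le_mul (by convert h2) ?_ (off_nonneg _) (pow_nonneg (by linarith [xi_le l]) _)
    rw [hG1]
    exact off_anti (Finset.filter_subset _ _)
  have h4 : Ex (fun x => ind (satT E x) * ind (!(on G x))) = (1 / 2) ^ Y.card * off G := by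
    rw [Ex_ind (A := vars E) (B := (vars E)ᶜ) (dep_satT E) (dep_off fun T' hT' => ?_)
      disjoint_compl_right, Ex_satT, len, hEv]
    · rfl
    · rw [hG, Finset.mem_image] at hT'
      obtain ⟨T0, _, rfl⟩ := hT'
      intro i hi
      rw [Finset.mem_compl, hEv]
      rw [vars_cut, Finset.mem_sdiff] at hi
      exact hi.2
  have h5 : Ex (fun x => ind (satT E x) * ind (!(on G x))) ≤
      Ex (fun x => ind (satT R x) * ind (!(on F x))) := by
    refine Ex_mono fun x => ?_
    rw [← ind_and, ← ind_and]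
    refine ind_mono fun hx => ?_
    rw [Bool.and_eq_true, Bool.not_eq_true'] at hx ⊢
    obtain ⟨hx1, hx2⟩ := hx
    have hxY : ∀ i ∈ Y, x i = z i := by
      intro i hi
      exact (satT_iff.1 hx1) i (z i) (by rw [hE]; simp [hi])
    refine ⟨?_, ?_⟩
    · rw [satT_congr fun i hi => hxY i (hRY hi)]
      exact hRz
    · rw [on_false_iff] at hx2 hFz ⊢
      intro T hT
      by_cases hTY : vars T ⊆ Y
      · rw [satT_congr fun i hi => hxY i (hTY hi)]
        exact hFz T hT
      · rw [← Bool.not_eq_true]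
        intro hc
        have h6 : satT (cut T Y) x = true := by
          rw [satT_iff] at hc ⊢
          intro i b hb
          unfold cut at hb
          split_ifs at hb with hi
          exact hc i b hb
        rw [hx2 (cut T Y) (by
          rw [hG, Finset.mem_image]
          exact ⟨T, Finset.mem_filter.2 ⟨hT, hTY⟩, rfl⟩)] at h6
        exact Bool.false_ne_true h6
  rw [h4] at h5
  refine le_trans ?_ h5
  have h6 : (1 / 4 : ℝ) ^ Y.card ≤ (1 / 2) ^ Y.card * (9 / 10) ^ Y.card := by
    rw [← mul_pow]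
    exact pow_le_pow_left₀ (by norm_num) (by norm_num) _
  calc (1 / 4 : ℝ) ^ Y.card * off F ≤ ((1 / 2) ^ Y.card * (9 / 10) ^ Y.card) * off F :=
        mul_le_mul_of_nonneg_right h6 (off_nonneg F)
    _ = (1 / 2) ^ Y.card * ((9 / 10) ^ Y.card * off F) := by ring
    _ ≤ (1 / 2) ^ Y.card * off G := mul_le_mul_of_nonneg_left h3 (by positivity)

/-- **One variable.** -/
theorem t_UP0 (h : S_LLL) : S_UP0 := by
  classical
  intro k l n F j hR hl hkl
  obtain ⟨F0, hF0⟩ : ∃ F0, F0 = F.filter fun T => T j = none := ⟨_, rfl⟩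
  obtain ⟨Fj, hFj⟩ : ∃ Fj, Fj = F.filter fun T => ¬ T j = none := ⟨_, rfl⟩
  have hU : F0 ∪ Fj = F := by
    rw [hF0, hFj]
    exact Finset.filter_union_filter_not_eq _ _
  have hF0s : F0 ⊆ F := by
    rw [hF0]
    exact Finset.filter_subset _ _
  have hFjs : Fj ⊆ F := by
    rw [hFj]
    exact Finset.filter_subset _ _
  have hFjc : Fj.card ≤ k := by
    rw [hFj]
    exact hR j
  have hon : ∀ x, ind (!(on F x)) = ind (!(on F0 x)) - ind (!(on F0 x)) * ind (on Fj x) := by
    intro x
    have h1 : on F x = (on F0 x || on Fj x) := by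
      rw [Bool.eq_iff_iff, Bool.or_eq_true, on_iff, on_iff, on_iff]
      constructor
      · rintro ⟨T, hT, h2⟩
        rw [← hU, Finset.mem_union] at hT
        rcases hT with hT | hT
        · exact Or.inl ⟨T, hT, h2⟩
        · exact Or.inr ⟨T, hT, h2⟩
      · rintro (⟨T, hT, h2⟩ | ⟨T, hT, h2⟩)
        · exact ⟨T, hF0s hT, h2⟩
        · exact ⟨T, hFjs hT, h2⟩
    rw [h1]
    cases on F0 x <;> cases on Fj x <;> simp [ind]
  have hzero : Ex (fun x => ind (!(on F0 x)) * sg (x j)) = 0 := by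
    refine Ex_mul_sg j _ fun x => ?_
    rw [on_congr (F := F0) (x := flp x j) (y := x)]
    intro T hT i hi
    refine flp_of_ne x ?_
    rintro rfl
    rw [hF0, Finset.mem_filter] at hT
    exact mem_vars.1 hi hT.2
  have h1 : Ex (fun x => ind (!(on F x)) * sg (x j)) =
      - Ex (fun x => ind (!(on F0 x)) * ind (on Fj x) * sg (x j)) := by
    have h2 : ∀ x, ind (!(on F x)) * sg (x j) = ind (!(on F0 x)) * sg (x j) -
        ind (!(on F0 x)) * ind (on Fj x) * sg (x j) := fun x => by
      rw [hon]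
      ring
    rw [Ex_congr h2, Ex_sub, hzero, zero_sub]
  have h2 : |Ex (fun x => ind (!(on F0 x)) * ind (on Fj x) * sg (x j))| ≤
      Ex (fun x => ind (!(on F0 x)) * ind (on Fj x)) := by
    refine (abs_Ex_le _).trans (Ex_mono fun x => ?_)
    rw [abs_mul, abs_sg, mul_one, abs_of_nonneg (mul_nonneg (ind_nonneg _) (ind_nonneg _))]
  have h3 : Ex (fun x => ind (!(on F0 x)) * ind (on Fj x)) ≤
      ∑ T ∈ Fj, Ex (fun x => ind (satT T x) * ind (!(on F0 x))) := by
    rw [← Ex_sum]
    refine Ex_mono fun x => ?_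
    rw [← Finset.sum_mul, mul_comm]
    refine mul_le_mul_of_nonneg_right ?_ (ind_nonneg _)
    rcases hx : on Fj x with _ | _
    · rw [ind_false]
      exact Finset.sum_nonneg fun T _ => ind_nonneg _
    · obtain ⟨T, hT, h4⟩ := on_iff.1 hx
      rw [ind_true]
      refine le_trans ?_ (Finset.single_le_sum (fun T _ => ind_nonneg (satT T x)) hT)
      rw [h4, ind_true]
  have hlll := h k l n F0 (hR.mono hF0s) (fun T hT => hl T (hF0s hT)) hkl
  have h4 : ∑ T ∈ Fj, Ex (fun x => ind (satT T x) * ind (!(on F0 x))) ≤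
      k * ((3 / 4 : ℝ) ^ l * off F0) := by
    refine (Finset.sum_le_card_nsmul Fj _ ((3 / 4 : ℝ) ^ l * off F0) fun T hT => ?_).trans ?_
    · refine (hlll.1 T).trans (mul_le_mul_of_nonneg_right
        (pow_le_pow_of_le_one (by norm_num) (by norm_num) (hl T (hFjs hT))) (off_nonneg F0))
    · rw [nsmul_eq_mul]
      exact mul_le_mul_of_nonneg_right (by exact_mod_cast hFjc)
        (mul_nonneg (by positivity) (off_nonneg _))
  have h5 : 9 / 10 * off F0 ≤ off F := by
    have h6 := ((h k l n F hR hl hkl).2.1) F0 hF0s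
    refine le_trans (mul_le_mul_of_nonneg_right ?_ (off_nonneg F0)) h6
    refine (pow_k k l hkl).trans (pow_le_pow_of_le_one (by linarith [xi_le l])
      (by linarith [xi_nonneg l]) ?_)
    refine le_trans (Finset.card_le_card ?_) hFjc
    intro T hT
    rw [Finset.mem_sdiff] at hT
    have h7 := hT.1
    rw [← hU, Finset.mem_union] at h7
    exact h7.resolve_left hT.2
  rw [h1, abs_neg]
  have h6 : (k : ℝ) * ((3 / 4 : ℝ) ^ l * off F0) ≤ 1 / 10 * off F0 := by
    have h7 : (k : ℝ) * (3 / 4 : ℝ) ^ l ≤ 1 / 10 := by linarith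
    calc (k : ℝ) * ((3 / 4 : ℝ) ^ l * off F0) = (k * (3 / 4 : ℝ) ^ l) * off F0 := by ring
      _ ≤ 1 / 10 * off F0 := mul_le_mul_of_nonneg_right h7 (off_nonneg F0)
  have h7 := off_nonneg F0
  linarith

/-- **One variable outside a closed set.** -/
theorem t_UP (h : S_UP0) : S_UP := by
  classical
  intro k l n F Y R j hR hkl hcl hRY hj
  rw [Ex_ov Y, Ex_ov Y (fun x => ind (satT R x) * ind (!(on F x))), ← Ex_mul_left]
  refine (abs_Ex_le _).trans (Ex_mono fun y => ?_)
  have h1 : ∀ x, ind (satT R (ov Y y x)) = ind (satT R y) := fun x => by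
    rw [satT_ov_of_subset hRY]
  have h2 : ∀ x : Pt n, sg (ov Y y x j) = sg (x j) := fun x => by
    unfold ov
    rw [if_neg hj]
  have h3 : Ex (fun x => ind (satT R (ov Y y x)) * ind (!(on F (ov Y y x))) *
      sg (ov Y y x j)) = ind (satT R y) * Ex (fun x => ind (!(on F (ov Y y x))) * sg (x j)) := by
    rw [← Ex_mul_left]
    exact Ex_congr fun x => by rw [h1, h2, mul_assoc]
  have h4 : Ex (fun x => ind (satT R (ov Y y x)) * ind (!(on F (ov Y y x)))) =
      ind (satT R y) * Ex (fun x => ind (!(on F (ov Y y x)))) := by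
    rw [← Ex_mul_left]
    exact Ex_congr fun x => by rw [h1]
  rw [h3, h4, abs_mul, abs_of_nonneg (ind_nonneg _)]
  have h5 : |Ex (fun x => ind (!(on F (ov Y y x))) * sg (x j))| ≤
      1 / 4 * Ex (fun x => ind (!(on F (ov Y y x)))) := by
    by_cases hin : ∃ T ∈ F, vars T ⊆ Y ∧ satT T y = true
    · obtain ⟨T, hT, hTY, hTy⟩ := hin
      have h6 : ∀ x, ind (!(on F (ov Y y x))) = 0 := by
        intro x
        have h7 : on F (ov Y y x) = true :=
          on_iff.2 ⟨T, hT, by rw [satT_ov_of_subset hTY]; exact hTy⟩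
        rw [h7]
        exact ind_false
      have h7 : Ex (fun x => ind (!(on F (ov Y y x))) * sg (x j)) = 0 := by
        rw [← Ex_zero (n := n)]
        exact Ex_congr fun x => by rw [h6, zero_mul]
      have h8 : Ex (fun x : Pt n => ind (!(on F (ov Y y x)))) = 0 := by
        rw [← Ex_zero (n := n)]
        exact Ex_congr fun x => h6 x
      rw [h7, h8, abs_zero, mul_zero]
    · push Not at hin
      obtain ⟨G, hG⟩ : ∃ G, G = (F.filter fun T => ¬ vars T ⊆ Y ∧
        ∀ i ∈ Y, ∀ b, T i = some b → y i = b).image fun T => cut T Y := ⟨_, rfl⟩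
      have hGr : ReadK k G := by
        rw [hG]
        exact ReadK.image_cut (hR.mono (Finset.filter_subset _ _)) Y
      have hGl : ∀ T ∈ G, l ≤ len T := by
        intro T hT
        rw [hG, Finset.mem_image] at hT
        obtain ⟨T0, hT0, rfl⟩ := hT
        rw [Finset.mem_filter] at hT0
        rw [len_cut]
        exact (hcl T0 hT0.1).resolve_left hT0.2.1
      have h6 : ∀ x, on F (ov Y y x) = on G x := by
        intro x
        rw [Bool.eq_iff_iff, on_iff, on_iff]
        constructor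
        · rintro ⟨T, hT, h7⟩
          rw [satT_ov] at h7
          by_cases hTY : vars T ⊆ Y
          · exfalso
            apply hin T hT hTY
            rw [satT_iff]
            intro i b hb
            exact h7.1 i (hTY (mem_vars.2 (by simp [hb]))) b hb
          · refine ⟨cut T Y, ?_, h7.2⟩
            rw [hG, Finset.mem_image]
            exact ⟨T, Finset.mem_filter.2 ⟨hT, hTY, h7.1⟩, rfl⟩
        · rintro ⟨T, hT, h7⟩
          rw [hG, Finset.mem_image] at hT
          obtain ⟨T0, hT0, rfl⟩ := hT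
          rw [Finset.mem_filter] at hT0
          exact ⟨T0, hT0.1, satT_ov.2 ⟨hT0.2.2, h7⟩⟩
      have h7 := h k l n G j hGr hGl hkl
      have h8 : Ex (fun x => ind (!(on F (ov Y y x))) * sg (x j)) =
          Ex (fun x => ind (!(on G x)) * sg (x j)) := Ex_congr fun x => by rw [h6]
      have h9 : Ex (fun x => ind (!(on F (ov Y y x)))) = off G := Ex_congr fun x => by rw [h6]
      rw [h8, h9]
      exact h7
  have h6 := mul_le_mul_of_nonneg_left h5 (ind_nonneg (satT R y))
  linarith

end Pool.Agent.Q75.RK
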